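import Pool.Agent.Work.MP_223b32_tc.Interface

/-!
# SUM: the union bound
-/

namespace Pool.Agent.Work.TC

open Finset Polynomial Pool.Agent.Work.MP_223b32_ag Pool.Agent.Work.MP_223b32_ag_56

namespace SUM

open Classical in
/-- The number of nonempty families of sets of total size at most `L`. -/
theorem count_fam {G : Type} [Fintype G] (T L : ℕ) (R : Finset G) :
    ((Finset.univ : Finset (Fin T → Finset G)).filter fun I =>
      (∃ t, (I t).Nonempty) ∧ ∑ t, (I t).card ≤ L ∧ ∀ t, I t ⊆ R).card ≤ (T * R.card) ^ L := by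
  let Φ : (Fin L → Fin T × R) → (Fin T → Finset G) := fun f t =>
    Finset.univ.filter fun x => ∃ i, (f i).1 = t ∧ ((f i).2 : G) = x
  have hcard : (Finset.univ : Finset (Fin L → Fin T × R)).card = (T * R.card) ^ L := by
    simp
  rw [← hcard]
  refine le_trans (Finset.card_le_card (t := Finset.univ.image Φ) ?_) Finset.card_image_le
  intro I hI
  obtain ⟨⟨t₀, x₀, hx₀⟩, hL, hR⟩ := (Finset.mem_filter.1 hI).2
  let S : Finset (Fin T × R) := Finset.univ.filter fun p => (p.2 : G) ∈ I p.1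
  have hS : S.card ≤ L := by
    refine le_trans ?_ hL
    rw [← Finset.card_sigma]
    refine Finset.card_le_card_of_injOn (fun p => ⟨p.1, (p.2 : G)⟩) ?_ ?_
    · intro p hp
      have hp' : p ∈ S := hp
      simpa using (Finset.mem_filter.1 hp').2
    · rintro ⟨a, b, hb⟩ _ ⟨a', b', hb'⟩ _ h
      simp only [Sigma.mk.injEq, heq_eq_eq] at h
      obtain ⟨h1, h2⟩ := h
      subst h1
      subst h2
      rfl
  have hc : Fintype.card ↥S ≤ Fintype.card (Fin L) := by simpa using hS
  obtain ⟨e⟩ := Function.Embedding.nonempty_of_card_le hc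
  have hne : Nonempty ↥S := ⟨⟨(t₀, ⟨x₀, hR t₀ hx₀⟩), by simp [S, hx₀]⟩⟩
  obtain ⟨g, hsurj⟩ : ∃ g : Fin L → ↥S, Function.Surjective g :=
    ⟨Function.invFun e, Function.invFun_surjective e.injective⟩
  refine Finset.mem_image.2 ⟨fun i => (g i : Fin T × R), Finset.mem_univ _, ?_⟩
  funext t
  ext x
  simp only [Φ, Finset.mem_filter, Finset.mem_univ, true_and]
  constructor
  · rintro ⟨i, rfl, rfl⟩
    exact (Finset.mem_filter.1 (g i).2).2
  · intro hx
    have hm : ((t, ⟨x, hR t hx⟩) : Fin T × R) ∈ S := by simp [S, hx]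
    obtain ⟨i, hi⟩ := hsurj ⟨_, hm⟩
    exact ⟨i, by rw [hi], by rw [hi]⟩

/-- Slicing: a bound for the fibres in one coordinate. -/
theorem slice {T : ℕ} {K : Type} [Finite K] (P : K → Prop) (Q : (Fin T → K) → Prop)
    (t₀ : Fin T) (B : ℝ)
    (hB : ∀ b : {j // j ≠ t₀} → K,
      (Nat.card {x : K // P x ∧ Q (fun j => if h : j = t₀ then x else b ⟨j, h⟩)} : ℝ) ≤ B) :
    (Nat.card {a : Fin T → K // (∀ t, P (a t)) ∧ Q a} : ℝ) ≤
      (Nat.card {x : K // P x} : ℝ) ^ (T - 1) * B := by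
  classical
  have := Fintype.ofFinite K
  have h1 : Nat.card {a : Fin T → K // (∀ t, P (a t)) ∧ Q a} ≤
      Nat.card (Σ b : {j // j ≠ t₀} → {x : K // P x},
        {x : K // P x ∧ Q (fun j => if h : j = t₀ then x else (b ⟨j, h⟩ : K))}) := by
    refine Nat.card_le_card_of_injective
      (fun a => ⟨fun j => ⟨a.1 j, a.2.1 j⟩, ⟨a.1 t₀, a.2.1 t₀, ?_⟩⟩) ?_
    · have : (fun j => if h : j = t₀ then a.1 t₀ else a.1 j) = a.1 := by
        funext j
        split_ifs with h
        · rw [h]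
        · rfl
      rw [this]
      exact a.2.2
    · rintro ⟨a, ha⟩ ⟨a', ha'⟩ h
      simp only [Sigma.mk.injEq] at h
      obtain ⟨h1, h2⟩ := h
      refine Subtype.ext (funext fun j => ?_)
      by_cases hj : j = t₀
      · subst hj
        have hv : ∀ (b b' : {i // i ≠ j} → {x : K // P x}) (_ : b = b')
            (u : {x : K // P x ∧ Q (fun i => if h : i = j then x else (b ⟨i, h⟩ : K))})
            (u' : {x : K // P x ∧ Q (fun i => if h : i = j then x else (b' ⟨i, h⟩ : K))}),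
            HEq u u' → (u : K) = u' := by
          intro b b' hb u u' hu
          subst hb
          rw [eq_of_heq hu]
        exact hv _ _ h1 _ _ h2
      · have := congrFun h1 ⟨j, hj⟩
        exact congrArg Subtype.val this
  have h2 : (Nat.card (Σ b : {j // j ≠ t₀} → {x : K // P x},
      {x : K // P x ∧ Q (fun j => if h : j = t₀ then x else (b ⟨j, h⟩ : K))}) : ℝ) ≤
      (Nat.card {x : K // P x} : ℝ) ^ (T - 1) * B := by
    rw [Nat.card_sigma]
    push_cast
    refine le_trans (Finset.sum_le_sum fun b _ => hB fun j => (b j : K)) ?_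
    rw [Finset.sum_const, nsmul_eq_mul, Finset.card_univ, Fintype.card_fun]
    have : Fintype.card {j : Fin T // j ≠ t₀} = T - 1 := by
      rw [Fintype.card_subtype_compl]
      simp
    rw [this, Nat.card_eq_fintype_card]
    push_cast
    exact le_refl _
  exact le_trans (by exact_mod_cast h1) h2

section main

variable {F K : Type} [Field F] [Fintype F] [Field K] [Fintype K] [Algebra F K]

theorem three_le (hF : ringChar F ≠ 2) : 3 ≤ Fintype.card F := by
  have h1 : 1 < Fintype.card F := Fintype.one_lt_card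
  have h2 : Fintype.card F ≠ 2 := by
    intro h2
    have h3 := FiniteField.even_card_iff_char_two (F := F)
    have : Fintype.card F % 2 = 0 := by omega
    exact hF (h3.2 this)
  omega

theorem card_out (hF : ringChar F ≠ 2) {n : ℕ} (hn : 3 ≤ n) (hfin : Module.finrank F K = n) :
    (Fintype.card F : ℝ) ^ n ≤ 9 / 8 * (Nat.card {a : K // a ∉ (algebraMap F K).range} : ℝ) := by
  classical
  have hcK : Fintype.card K = Fintype.card F ^ n := by
    have := Module.card_eq_pow_finrank (K := F) (V := K)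
    rwa [hfin] at this
  have hA : Nat.card {a : K // a ∉ (algebraMap F K).range} =
      (Finset.univ.filter fun a : K => ¬ a ∈ (algebraMap F K).range).card := by
    rw [Nat.card_eq_fintype_card, Fintype.card_subtype]
  have h1 : (Finset.univ.filter fun a : K => a ∈ (algebraMap F K).range).card +
      (Finset.univ.filter fun a : K => ¬ a ∈ (algebraMap F K).range).card = Fintype.card K := by
    rw [Finset.card_filter_add_card_filter_not, Finset.card_univ]
  have h2 : (Finset.univ.filter fun a : K => a ∈ (algebraMap F K).range).card ≤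
      Fintype.card F := by
    rw [← Finset.card_univ (α := F)]
    refine le_trans (Finset.card_le_card (t := Finset.univ.image (algebraMap F K)) ?_)
      Finset.card_image_le
    intro x hx
    obtain ⟨y, hy⟩ := (Finset.mem_filter.1 hx).2
    exact Finset.mem_image.2 ⟨y, Finset.mem_univ _, hy⟩
  rw [← hA, hcK] at h1
  have h3 := three_le hF
  have h4 : 9 * Fintype.card F ≤ Fintype.card F ^ n := by
    calc 9 * Fintype.card F = 3 * 3 * Fintype.card F := by ring
      _ ≤ Fintype.card F * Fintype.card F * Fintype.card F :=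
          Nat.mul_le_mul_right _ (Nat.mul_le_mul h3 h3)
      _ = Fintype.card F ^ 3 := by ring
      _ ≤ Fintype.card F ^ n := Nat.pow_le_pow_right (by omega) hn
  have h5 : 8 * Fintype.card F ^ n ≤ 9 * Nat.card {a : K // a ∉ (algebraMap F K).range} := by
    omega
  have h6 : 8 * (Fintype.card F : ℝ) ^ n ≤
      9 * (Nat.card {a : K // a ∉ (algebraMap F K).range} : ℝ) := by exact_mod_cast h5
  linarith

theorem numeric {m J d : ℕ} (hJ : 1 ≤ J) (hm : m ≤ 4 * J * d) (hd : 4 ≤ d) :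
    (2 : ℝ) ^ (d / 2 + 1) / 2 ^ d + 12 / 3 ^ (d / 2) ≤ 16 * 2 ^ (-(m : ℝ) / (8 * J)) := by
  set t := d / 2 with ht
  have ht2 : 2 ≤ t := by omega
  have h2t : 2 * t ≤ d := by omega
  have hd1 : d ≤ 2 * t + 1 := by omega
  have hp : (0 : ℝ) < (1 / 2) ^ t := by positivity
  have h1 : (2 : ℝ) ^ (t + 1) / 2 ^ d ≤ 2 * (1 / 2) ^ t := by
    rw [div_le_iff₀ (by positivity)]
    calc (2 : ℝ) ^ (t + 1) = 2 * (1 / 2) ^ t * 2 ^ (2 * t) := by
          rw [pow_mul, mul_assoc, ← mul_pow]
          norm_num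
          ring
      _ ≤ 2 * (1 / 2) ^ t * 2 ^ d :=
          mul_le_mul_of_nonneg_left (pow_le_pow_right₀ (by norm_num) h2t) (by positivity)
  have h2 : (12 : ℝ) / 3 ^ t ≤ 6 * (1 / 2) ^ t := by
    have h3 : (2 / 3 : ℝ) ^ t ≤ (2 / 3) ^ 2 :=
      pow_le_pow_of_le_one (by norm_num) (by norm_num) ht2
    have h4 : (12 : ℝ) / 3 ^ t = 12 * (2 / 3) ^ t * (1 / 2) ^ t := by
      rw [mul_assoc, ← mul_pow, div_eq_mul_inv, ← inv_pow]
      norm_num
    rw [h4]
    refine mul_le_mul_of_nonneg_right ?_ hp.le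
    norm_num at h3 ⊢
    linarith
  have h3 : ((1 : ℝ) / 2) ^ t ≤ 2 * 2 ^ (-(m : ℝ) / (8 * J)) := by
    have hJ' : (0 : ℝ) < J := by exact_mod_cast hJ
    have e1 : ((1 : ℝ) / 2) ^ t = 2 ^ (-(t : ℝ)) := by
      rw [Real.rpow_neg (by norm_num), Real.rpow_natCast, one_div, inv_pow]
    have e2 : (2 : ℝ) * 2 ^ (-(m : ℝ) / (8 * J)) = 2 ^ (1 + -(m : ℝ) / (8 * J)) := by
      rw [Real.rpow_add (by norm_num), Real.rpow_one]
    rw [e1, e2]
    refine Real.rpow_le_rpow_of_exponent_le (by norm_num) ?_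
    have h5 : (m : ℝ) ≤ 4 * J * d := by exact_mod_cast hm
    have h6 : (d : ℝ) ≤ 2 * t + 1 := by exact_mod_cast hd1
    have h7 : (m : ℝ) / (8 * J) ≤ t + 1 := by
      rw [div_le_iff₀ (by positivity)]
      nlinarith
    have h8 : -(m : ℝ) / (8 * J) = -((m : ℝ) / (8 * J)) := by ring
    rw [h8]
    linarith
  linarith

theorem card_tuples {T J N : ℕ} :
    (Nat.card {a : Fin T → K // (∀ t, a t ∉ (algebraMap F K).range) ∧ Bad F J N a} : ℝ) ≤
      (Nat.card {a : K // a ∉ (algebraMap F K).range} : ℝ) ^ T := by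
  classical
  have h : Nat.card {a : Fin T → K // (∀ t, a t ∉ (algebraMap F K).range) ∧ Bad F J N a} ≤
      Nat.card (Fin T → {a : K // a ∉ (algebraMap F K).range}) := by
    refine Nat.card_le_card_of_injective (fun a t => ⟨a.1 t, a.2.1 t⟩) ?_
    intro a b hab
    refine Subtype.ext (funext fun t => ?_)
    exact congrArg Subtype.val (congrFun hab t)
  rw [Nat.card_fun, Nat.card_eq_fintype_card (α := Fin T), Fintype.card_fin] at h
  exact_mod_cast h

/-- The number of tuples which satisfy one linear condition. -/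
theorem one_fam (hLIN : Stmt_LIN) (hCOUNT : Stmt_COUNT) [DecidableEq K] (hF : ringChar F ≠ 2)
    {n : ℕ} (hn : n.Prime) (hn2 : n ≠ 2) (hfin : Module.finrank F K = n)
    {G : Type} [Field G] [Fintype G] [Algebra (ZMod 2) G]
    (hG : Fintype.card G = 2 ^ orderOf (2 : ZMod n)) {T J : ℕ} (hT : 1 ≤ T) (hJ : 1 ≤ J)
    (hm : 12 * J < orderOf (2 : ZMod n)) (I : Fin T → Finset G) (t₀ : Fin T)
    (hne : (I t₀).Nonempty) (hI : ∑ t, (I t).card ≤ 2 * J) (hAdm : ∀ t, Adm n (I t)) (c' : G) :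
    (Nat.card {a : Fin T → K // (∀ t, a t ∉ (algebraMap F K).range) ∧
      ∑ t, ∑ k ∈ Icc 1 (n / 2), (dl F (a t) k : G) * cc n (I t) k = c'} : ℝ) ≤
      18 * 2 ^ (-(orderOf (2 : ZMod n) : ℝ) / (8 * J)) *
        (Nat.card {a : K // a ∉ (algebraMap F K).range} : ℝ) ^ T := by
  set m := orderOf (2 : ZMod n) with hmdef
  obtain ⟨d, hd1, hd2⟩ := hLIN G n m hn hn2 rfl hG (I t₀) hne (hAdm t₀)
  have hcard : (I t₀).card ≤ 2 * J :=
    le_trans (Finset.single_le_sum (f := fun t => (I t).card) (fun _ _ => Nat.zero_le _)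
      (Finset.mem_univ t₀)) hI
  have hmd : m ≤ 4 * J * d := by
    calc m ≤ 2 * (I t₀).card * d := hd1
      _ ≤ 2 * (2 * J) * d := Nat.mul_le_mul_right _ (Nat.mul_le_mul_left _ hcard)
      _ = 4 * J * d := by ring
  have hd4 : 4 ≤ d := by
    by_contra h
    have h3 : d ≤ 3 := by omega
    have : 4 * J * d ≤ 4 * J * 3 := Nat.mul_le_mul_left _ h3
    omega
  have hn3 : 3 ≤ n := by
    have := hn.two_le
    omega
  have hout := card_out (K := K) hF hn3 hfin
  set A : ℝ := (Nat.card {a : K // a ∉ (algebraMap F K).range} : ℝ) with hA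
  have hA0 : 0 ≤ A := Nat.cast_nonneg _
  set B : ℝ := (Fintype.card F : ℝ) ^ n * (2 ^ (d / 2 + 1) / 2 ^ d + 12 / 3 ^ (d / 2)) with hB
  have hslice := slice (T := T) (K := K) (fun x => x ∉ (algebraMap F K).range)
    (fun a => ∑ t, ∑ k ∈ Icc 1 (n / 2), (dl F (a t) k : G) * cc n (I t) k = c') t₀ B (by
      intro b
      have h := hCOUNT F K hF n hn hn2 hfin G m d (cc n (I t₀))
        (c' - ∑ t ∈ Finset.univ.erase t₀, ∑ k ∈ Icc 1 (n / 2),
          (dl F (if h : t = t₀ then 0 else b ⟨t, h⟩) k : G) * cc n (I t) k) hG hd2 (d / 2)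
        (by omega)
      rw [← hB] at h
      refine le_trans (le_of_eq ?_) h
      congr 1
      refine Nat.card_congr (Equiv.subtypeEquivRight fun x => and_congr_right fun _ => ?_)
      have hsum : ∑ t, ∑ k ∈ Icc 1 (n / 2),
          (dl F (if h : t = t₀ then x else b ⟨t, h⟩) k : G) * cc n (I t) k =
          ∑ k ∈ Icc 1 (n / 2), (dl F x k : G) * cc n (I t₀) k +
          ∑ t ∈ Finset.univ.erase t₀, ∑ k ∈ Icc 1 (n / 2),
            (dl F (if h : t = t₀ then 0 else b ⟨t, h⟩) k : G) * cc n (I t) k := by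
        rw [← Finset.add_sum_erase _ _ (Finset.mem_univ t₀)]
        refine congrArg₂ (· + ·) ?_ (Finset.sum_congr rfl fun t ht => ?_)
        · exact Finset.sum_congr rfl fun k _ => by rw [dif_pos rfl]
        · exact Finset.sum_congr rfl fun k _ => by
            rw [dif_neg (Finset.ne_of_mem_erase ht), dif_neg (Finset.ne_of_mem_erase ht)]
      rw [hsum, eq_sub_iff_add_eq])
  refine hslice.trans ?_
  have hnum := numeric hJ hmd hd4
  have hE : (0 : ℝ) < 2 ^ (-(m : ℝ) / (8 * J)) := Real.rpow_pos_of_pos (by norm_num) _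
  have hBle : B ≤ 9 / 8 * A * (16 * 2 ^ (-(m : ℝ) / (8 * J))) := by
    rw [hB]
    refine mul_le_mul hout hnum (by positivity) (by positivity)
  calc A ^ (T - 1) * B ≤ A ^ (T - 1) * (9 / 8 * A * (16 * 2 ^ (-(m : ℝ) / (8 * J)))) :=
        mul_le_mul_of_nonneg_left hBle (by positivity)
    _ = 18 * 2 ^ (-(m : ℝ) / (8 * J)) * (A ^ (T - 1) * A) := by ring
    _ = 18 * 2 ^ (-(m : ℝ) / (8 * J)) * A ^ T := by
        rw [← pow_succ, Nat.sub_add_cancel hT]

end main

end SUM

open SUM in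
theorem stmt_SUM (hONE : Stmt_ONE) (hLIN : Stmt_LIN) (hCOUNT : Stmt_COUNT) : Stmt_SUM := by
  intro F K _ _ _ _ _ hF n hn hn2 hfin T J hT hJ
  classical
  set m := orderOf (2 : ZMod n) with hmdef
  set A : ℝ := (Nat.card {a : K // a ∉ (algebraMap F K).range} : ℝ) with hA
  have hA0 : 0 ≤ A := Nat.cast_nonneg _
  have hE : (0 : ℝ) < 2 ^ (-(m : ℝ) / (8 * J)) := Real.rpow_pos_of_pos (by norm_num) _
  have hnT : (1 : ℝ) ≤ ((n : ℝ) * T) ^ (2 * J) := by
    have h1 : (1 : ℝ) ≤ (n : ℝ) * T := by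
      have : 1 ≤ n * T := Nat.mul_pos hn.pos hT
      exact_mod_cast this
    exact one_le_pow₀ h1
  rcases le_or_gt m (12 * J) with hm | hm
  · refine card_tuples.trans ?_
    have h1 : (1 : ℝ) ≤ 40 * ((n : ℝ) * T) ^ (2 * J) * 2 ^ (-(m : ℝ) / (8 * J)) := by
      have hJ' : (0 : ℝ) < J := by exact_mod_cast hJ
      have h2 : (2 : ℝ) ^ (-(2 : ℝ)) ≤ 2 ^ (-(m : ℝ) / (8 * J)) := by
        refine Real.rpow_le_rpow_of_exponent_le (by norm_num) ?_
        have h3 : (m : ℝ) ≤ 12 * J := by exact_mod_cast hm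
        have h4 : (m : ℝ) / (8 * J) ≤ 2 := by
          rw [div_le_iff₀ (by positivity)]
          linarith
        have h8 : -(m : ℝ) / (8 * J) = -((m : ℝ) / (8 * J)) := by ring
        rw [h8]
        linarith
      have h3 : (2 : ℝ) ^ (-(2 : ℝ)) = 1 / 4 := by
        rw [Real.rpow_neg (by norm_num)]
        norm_num
      rw [h3] at h2
      nlinarith
    calc A ^ T = 1 * A ^ T := (one_mul _).symm
      _ ≤ _ := mul_le_mul_of_nonneg_right h1 (by positivity)
  · have hm0 : m ≠ 0 := by omega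
    have hfG : Finite (GaloisField 2 m) := inferInstance
    let iG : Fintype (GaloisField 2 m) := Fintype.ofFinite _
    have hG : Fintype.card (GaloisField 2 m) = 2 ^ m := by
      rw [← Nat.card_eq_fintype_card]
      exact GaloisField.card 2 m hm0
    obtain ⟨c', hc'⟩ := hONE F K hF n hn hn2 hfin (GaloisField 2 m) hG T J
    let R : Finset (GaloisField 2 m) := (Polynomial.nthRoots n 1).toFinset
    have hR : R.card ≤ n :=
      (Multiset.toFinset_card_le _).trans (Polynomial.card_nthRoots n 1)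
    let Fam : Finset (Fin T → Finset (GaloisField 2 m)) :=
      Finset.univ.filter fun I => (∃ t, (I t).Nonempty) ∧ ∑ t, (I t).card ≤ 2 * J ∧
        ∀ t, I t ⊆ R
    have hFam : Fam.card ≤ (T * R.card) ^ (2 * J) := count_fam T (2 * J) R
    let Fam' := Fam.filter fun I => ∀ t, Adm n (I t)
    have hFam' : (Fam'.card : ℝ) ≤ ((n : ℝ) * T) ^ (2 * J) := by
      have h1 : Fam'.card ≤ (n * T) ^ (2 * J) := by
        refine (Finset.card_filter_le _ _).trans (hFam.trans ?_)
        refine Nat.pow_le_pow_left ?_ _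
        rw [mul_comm]
        exact Nat.mul_le_mul_right _ hR
      exact_mod_cast h1
    let S : (Fin T → Finset (GaloisField 2 m)) → Finset (Fin T → K) := fun I =>
      Finset.univ.filter fun a => (∀ t, a t ∉ (algebraMap F K).range) ∧
        ∑ t, ∑ k ∈ Icc 1 (n / 2), (dl F (a t) k : GaloisField 2 m) * cc n (I t) k = c' I
    have hS : ∀ I ∈ Fam', ((S I).card : ℝ) ≤ 18 * 2 ^ (-(m : ℝ) / (8 * J)) * A ^ T := by
      intro I hI
      obtain ⟨hI1, hI2⟩ := Finset.mem_filter.1 hI
      obtain ⟨-, ⟨t₀, hne⟩, hL, -⟩ := Finset.mem_filter.1 hI1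
      have h := one_fam hLIN hCOUNT hF hn hn2 hfin hG hT hJ hm I t₀ hne hL hI2 (c' I)
      have e : Nat.card {a : Fin T → K // (∀ t, a t ∉ (algebraMap F K).range) ∧
          ∑ t, ∑ k ∈ Icc 1 (n / 2), (dl F (a t) k : GaloisField 2 m) * cc n (I t) k = c' I} =
          (S I).card := by
        rw [Nat.card_eq_fintype_card, Fintype.card_subtype]
      rw [e] at h
      exact h
    have hbad : Nat.card {a : Fin T → K // (∀ t, a t ∉ (algebraMap F K).range) ∧
        Bad F J (n - 1) a} ≤ ∑ I ∈ Fam', (S I).card := by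
      rw [Nat.card_eq_fintype_card, Fintype.card_subtype]
      refine le_trans (Finset.card_le_card ?_) Finset.card_biUnion_le
      intro a ha
      obtain ⟨-, ha1, ha2⟩ := Finset.mem_filter.1 ha
      obtain ⟨I, hI1, hI2, hI3, hI4⟩ := hc' a ha1 ha2
      refine Finset.mem_biUnion.2 ⟨I, ?_, ?_⟩
      · refine Finset.mem_filter.2 ⟨Finset.mem_filter.2 ⟨Finset.mem_univ _, hI1, hI2, ?_⟩, hI3⟩
        intro t z hz
        have hz' := (hI3 t z hz).1
        exact Multiset.mem_toFinset.2 ((Polynomial.mem_nthRoots hn.pos).2 hz')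
      · exact Finset.mem_filter.2 ⟨Finset.mem_univ _, ha1, hI4⟩
    calc (Nat.card {a : Fin T → K // (∀ t, a t ∉ (algebraMap F K).range) ∧
        Bad F J (n - 1) a} : ℝ) ≤ ∑ I ∈ Fam', ((S I).card : ℝ) := by exact_mod_cast hbad
      _ ≤ ∑ _I ∈ Fam', 18 * 2 ^ (-(m : ℝ) / (8 * J)) * A ^ T := Finset.sum_le_sum hS
      _ = Fam'.card * (18 * 2 ^ (-(m : ℝ) / (8 * J)) * A ^ T) := by
          rw [Finset.sum_const, nsmul_eq_mul]
      _ ≤ ((n : ℝ) * T) ^ (2 * J) * (18 * 2 ^ (-(m : ℝ) / (8 * J)) * A ^ T) :=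
          mul_le_mul_of_nonneg_right hFam' (by positivity)
      _ ≤ 40 * ((n : ℝ) * T) ^ (2 * J) * 2 ^ (-(m : ℝ) / (8 * J)) * A ^ T := by
          have hX : (0 : ℝ) ≤ ((n : ℝ) * T) ^ (2 * J) * 2 ^ (-(m : ℝ) / (8 * J)) * A ^ T := by
            positivity
          nlinarith

end Pool.Agent.Work.TC
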