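import Pool.Agent.Work.MP_223b32_tc.Interface

/-! # COUNT: the number of elements with one linear condition on the bits (helper15) -/

set_option autoImplicit false

namespace Pool.Agent.Work.TC.COUNT

open Finset Polynomial

section field

variable {F K : Type} [Field F] [Fintype F] [Field K] [Fintype K] [Algebra F K]

lemma mem_range_of_pow_card (a : K) (h : a ^ Fintype.card F = a) :
    a ∈ (algebraMap F K).range := by
  have h1 : (X ^ Fintype.card F - X : F[X]) ≠ 0 :=
    FiniteField.X_pow_card_sub_X_ne_zero F Fintype.one_lt_card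
  have h2 : Multiset.card (X ^ Fintype.card F - X : F[X]).roots =
      (X ^ Fintype.card F - X : F[X]).natDegree := by
    rw [FiniteField.roots_X_pow_card_sub_X,
      FiniteField.X_pow_card_sub_X_natDegree_eq F Fintype.one_lt_card]
    simp
  have h3 := Polynomial.roots_map_of_injective_of_card_eq_natDegree
    (algebraMap F K).injective h2
  have h4 : a ∈ ((X ^ Fintype.card F - X : F[X]).map (algebraMap F K)).roots := by
    rw [Polynomial.mem_roots_map h1]
    simp [h]
  rw [← h3, Multiset.mem_map] at h4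
  obtain ⟨b, -, rfl⟩ := h4
  exact ⟨b, rfl⟩

lemma pow_ne {n : ℕ} (hn : n.Prime) (hfin : Module.finrank F K = n) (a : K)
    (ha : a ∉ (algebraMap F K).range) {k : ℕ} (h1 : 1 ≤ k) (hk : k < n) :
    a ^ Fintype.card F ^ k ≠ a := by
  intro h
  apply ha
  have hit : ∀ j : ℕ, (fun x : K => x ^ Fintype.card F)^[j] a = a ^ Fintype.card F ^ j := by
    intro j
    induction j with
    | zero => simp
    | succ j ih =>
      rw [Function.iterate_succ_apply', ih, ← pow_mul, pow_succ]
  have e1 : Function.IsPeriodicPt (fun x : K => x ^ Fintype.card F) k a := by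
    unfold Function.IsPeriodicPt Function.IsFixedPt
    rw [hit, h]
  have e2 : Function.IsPeriodicPt (fun x : K => x ^ Fintype.card F) n a := by
    unfold Function.IsPeriodicPt Function.IsFixedPt
    rw [hit, ← hfin, ← Module.card_eq_pow_finrank (K := F) (V := K)]
    exact FiniteField.pow_card a
  have e3 := e1.gcd e2
  have hg : k.gcd n = 1 := by
    rw [Nat.gcd_comm]
    refine (Nat.Prime.coprime_iff_not_dvd hn).2 fun hd => ?_
    exact absurd (Nat.le_of_dvd h1 hd) (by omega)
  rw [hg] at e3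
  apply mem_range_of_pow_card (F := F)
  exact e3

end field

/-- the sign -/
noncomputable def sg (x : ZMod 2) : ℝ := if x = 0 then 1 else -1

lemma sg_zero : sg 0 = 1 := by simp [sg]

lemma sg_add (x y : ZMod 2) : sg (x + y) = sg x * sg y := by
  have h2 : ∀ z : ZMod 2, z = 0 ∨ z = 1 := by decide
  have h11 : (1 : ZMod 2) + 1 = 0 := by decide
  have h10 : (1 : ZMod 2) ≠ 0 := by decide
  unfold sg
  rcases h2 x with rfl | rfl <;> rcases h2 y with rfl | rfl <;> simp [h11, h10]

lemma sg_abs (x : ZMod 2) : |sg x| = 1 := by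
  unfold sg
  split_ifs <;> simp

lemma sg_sum {ι : Type} (s : Finset ι) (f : ι → ZMod 2) :
    sg (∑ i ∈ s, f i) = ∏ i ∈ s, sg (f i) := by
  classical
  induction s using Finset.induction_on with
  | empty => simp [sg_zero]
  | insert i s hi ih => rw [Finset.sum_insert hi, Finset.prod_insert hi, sg_add, ih]

section G

variable {G : Type} [Field G] [Fintype G] [Algebra (ZMod 2) G]

/-- the subspaces -/
noncomputable def VV (c : ℕ → G) (S : Finset ℕ) : Finset G := by
  classical
  exact Finset.univ.filter fun y => ∀ k ∈ S, Algebra.trace (ZMod 2) G (y * c k) = 0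

lemma mem_VV (c : ℕ → G) (S : Finset ℕ) (y : G) :
    y ∈ VV c S ↔ ∀ k ∈ S, Algebra.trace (ZMod 2) G (y * c k) = 0 := by
  classical
  unfold VV
  simp

lemma add_self_G (x : G) : x + x = 0 := by
  have : CharP G 2 := charP_of_injective_algebraMap (algebraMap (ZMod 2) G).injective 2
  exact CharTwo.add_self_eq_zero x

lemma sum_nonneg (c : ℕ → G) (S : Finset ℕ) (z : G) :
    0 ≤ ∑ y ∈ VV c S, sg (Algebra.trace (ZMod 2) G (y * z)) := by
  classical
  by_cases h : ∃ y0 ∈ VV c S, Algebra.trace (ZMod 2) G (y0 * z) ≠ 0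
  · obtain ⟨y0, h0, h1⟩ := h
    have key : ∑ y ∈ VV c S, sg (Algebra.trace (ZMod 2) G (y * z)) =
        ∑ y ∈ VV c S, sg (Algebra.trace (ZMod 2) G ((y + y0) * z)) := by
      refine Finset.sum_nbij' (fun y => y + y0) (fun y => y + y0) ?_ ?_ ?_ ?_ ?_
      · intro y hy
        rw [mem_VV] at hy h0 ⊢
        intro k hk
        rw [add_mul, map_add, hy k hk, h0 k hk, add_zero]
      · intro y hy
        rw [mem_VV] at hy h0 ⊢
        intro k hk
        rw [add_mul, map_add, hy k hk, h0 k hk, add_zero]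
      · intro y _
        simp only [add_assoc, add_self_G, add_zero]
      · intro y _
        simp only [add_assoc, add_self_G, add_zero]
      · intro y _
        simp only [add_assoc, add_self_G, add_zero]
    have key2 : ∑ y ∈ VV c S, sg (Algebra.trace (ZMod 2) G ((y + y0) * z)) =
        - ∑ y ∈ VV c S, sg (Algebra.trace (ZMod 2) G (y * z)) := by
      rw [← Finset.sum_neg_distrib]
      refine Finset.sum_congr rfl fun y _ => ?_
      rw [add_mul, map_add, sg_add]
      have : sg (Algebra.trace (ZMod 2) G (y0 * z)) = -1 := by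
        unfold sg
        rw [if_neg h1]
      rw [this, mul_neg_one]
    rw [key2] at key
    have := self_eq_neg.1 key
    exact this.ge
  · push Not at h
    refine Finset.sum_nonneg fun y hy => ?_
    rw [h y hy, sg_zero]
    exact zero_le_one

lemma card_VV (c : ℕ → G) (S : Finset ℕ) : Fintype.card G ≤ (VV c S).card * 2 ^ S.card := by
  classical
  have h := Finset.card_le_mul_card_image_of_maps_to (s := (Finset.univ : Finset G))
    (t := (Finset.univ : Finset (S → ZMod 2)))
    (f := fun y => fun k : S => Algebra.trace (ZMod 2) G (y * c k)) (fun _ _ => Finset.mem_univ _)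
    (VV c S).card (by
      intro b _
      by_cases hb : ∃ y0, (fun k : S => Algebra.trace (ZMod 2) G (y0 * c k)) = b
      · obtain ⟨y0, rfl⟩ := hb
        refine Finset.card_le_card_of_injOn (fun y => y + y0) ?_ ?_
        · intro y hy
          simp only [Finset.coe_filter, Finset.mem_univ, true_and, Set.mem_ofPred_eq] at hy
          rw [Finset.mem_coe, mem_VV]
          intro k hk
          have := congrFun hy ⟨k, hk⟩
          simp only at this
          rw [add_mul, map_add, this, CharTwo.add_self_eq_zero]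
        · intro x _ y _ hxy
          exact add_right_cancel hxy
      · rw [Finset.filter_eq_empty_iff.2]
        · simp
        · intro y _ hy
          exact hb ⟨y, hy⟩)
  rw [Finset.card_univ, Finset.card_univ, Fintype.card_fun, ZMod.card, Fintype.card_coe] at h
  exact h

end G

section main

variable {F K : Type} [Field F] [Fintype F] [Field K] [Fintype K] [DecidableEq K] [Algebra F K]
variable {G : Type} [Field G] [Fintype G] [Algebra (ZMod 2) G]

lemma chi_bit {n : ℕ} (hn : n.Prime) (hfin : Module.finrank F K = n) (a : K)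
    (ha : a ∉ (algebraMap F K).range) {k : ℕ} (h1 : 1 ≤ k) (hk : k < n) :
    ((quadraticChar K (a ^ Fintype.card F ^ k - a) : ℤ) : ℝ) = sg ((dl F a k : ℕ) : ZMod 2) := by
  have hne : a ^ Fintype.card F ^ k - a ≠ 0 := sub_ne_zero.2 (pow_ne hn hfin a ha h1 hk)
  have h10 : (1 : ZMod 2) ≠ 0 := by decide
  unfold dl sg
  rcases quadraticChar_dichotomy hne with h | h
  · rw [h]
    norm_num
  · rw [h]
    simp [h10]

/-- the weight function -/
noncomputable def ff (F : Type) {K : Type} [Field F] [Fintype F] [Field K] [Fintype K]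
    [DecidableEq K] [Algebra F K] (c : ℕ → G) (c' : G) (u g : ℕ) (a : K) : ℝ := by
  classical
  exact ∑ y ∈ VV c (Ioc u g), sg (Algebra.trace (ZMod 2) G (y * c')) *
    ∏ k ∈ (Icc 1 u).filter fun k => Algebra.trace (ZMod 2) G (y * c k) ≠ 0,
      ((quadraticChar K (a ^ Fintype.card F ^ k - a) : ℤ) : ℝ)

lemma trace_natCast_mul (m : ℕ) (x : G) :
    Algebra.trace (ZMod 2) G ((m : G) * x) = (m : ZMod 2) * Algebra.trace (ZMod 2) G x := by
  rw [← nsmul_eq_mul, map_nsmul, nsmul_eq_mul]

lemma ff_out {n : ℕ} (hn : n.Prime) (hfin : Module.finrank F K = n) (c : ℕ → G) (c' : G)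
    {u g : ℕ} (hug : u ≤ g) (hg : g < n) (a : K) (ha : a ∉ (algebraMap F K).range) :
    ff F c c' u g a = ∑ y ∈ VV c (Ioc u g), sg (Algebra.trace (ZMod 2) G
      (y * (c' + ∑ k ∈ Icc 1 g, (dl F a k : G) * c k))) := by
  classical
  unfold ff
  refine Finset.sum_congr rfl fun y hy => ?_
  rw [mem_VV] at hy
  rw [mul_add, map_add, sg_add, Finset.mul_sum, map_sum, sg_sum]
  congr 1
  have hsub : Icc 1 u ⊆ Icc 1 g := Finset.Icc_subset_Icc_right hug
  rw [← Finset.prod_subset hsub, Finset.prod_filter]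
  · refine Finset.prod_congr rfl fun k hk => ?_
    rw [Finset.mem_Icc] at hk
    have e : y * ((dl F a k : G) * c k) = (dl F a k : G) * (y * c k) := by ring
    rw [e, trace_natCast_mul, chi_bit hn hfin a ha hk.1 (by omega)]
    have h2 : ∀ z : ZMod 2, z = 0 ∨ z = 1 := by decide
    rcases h2 (Algebra.trace (ZMod 2) G (y * c k)) with h | h
    · rw [h, if_neg (by simp), mul_zero, sg_zero]
    · rw [h, if_pos (by decide), mul_one]
  · intro k hk hk'
    rw [Finset.mem_Icc] at hk hk'
    have e : y * ((dl F a k : G) * c k) = (dl F a k : G) * (y * c k) := by ring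
    rw [e, trace_natCast_mul, hy k (Finset.mem_Ioc.2 ⟨by omega, hk.2⟩), mul_zero, sg_zero]

lemma filter_empty (c : ℕ → G) {u g : ℕ} (hug : u ≤ g) {y : G} (hy : y ∈ VV c (Ioc u g)) :
    (∀ k ∈ Icc 1 u, Algebra.trace (ZMod 2) G (y * c k) = 0) ↔ y ∈ VV c (Icc 1 g) := by
  rw [mem_VV] at hy ⊢
  constructor
  · intro h k hk
    rw [Finset.mem_Icc] at hk
    by_cases hku : k ≤ u
    · exact h k (Finset.mem_Icc.2 ⟨hk.1, hku⟩)
    · exact hy k (Finset.mem_Ioc.2 ⟨by omega, hk.2⟩)
  · intro h k hk
    rw [Finset.mem_Icc] at hk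
    exact h k (Finset.mem_Icc.2 ⟨hk.1, by omega⟩)

lemma VV_subset (c : ℕ → G) {u g : ℕ} : VV c (Icc 1 g) ⊆ VV c (Ioc u g) := by
  intro y hy
  rw [mem_VV] at hy ⊢
  intro k hk
  rw [Finset.mem_Ioc] at hk
  exact hy k (Finset.mem_Icc.2 ⟨by omega, hk.2⟩)

lemma ff_in (c : ℕ → G) (c' : G) {u g : ℕ} (hug : u ≤ g) (a : K)
    (ha : a ∈ (algebraMap F K).range) :
    ff F c c' u g a = ∑ y ∈ VV c (Icc 1 g), sg (Algebra.trace (ZMod 2) G (y * c')) := by
  classical
  unfold ff
  obtain ⟨b, rfl⟩ := ha
  have hz : ∀ k : ℕ, algebraMap F K b ^ Fintype.card F ^ k - algebraMap F K b = 0 := by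
    intro k
    rw [← map_pow, FiniteField.pow_card_pow, sub_self]
  rw [← Finset.sum_subset (VV_subset (u := u) c)]
  · refine Finset.sum_congr rfl fun y hy => ?_
    have h := (filter_empty c hug (VV_subset c hy)).2 hy
    rw [Finset.filter_eq_empty_iff.2, Finset.prod_empty, mul_one]
    intro k hk hne
    exact hne (h k hk)
  · intro y hy hy'
    rw [← filter_empty c hug hy] at hy'
    push Not at hy'
    obtain ⟨k, hk, hne⟩ := hy'
    rw [Finset.prod_eq_zero (Finset.mem_filter.2 ⟨hk, hne⟩), mul_zero]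
    rw [hz, MulChar.map_zero, Int.cast_zero]

lemma ff_nonneg {n : ℕ} (hn : n.Prime) (hfin : Module.finrank F K = n) (c : ℕ → G) (c' : G)
    {u g : ℕ} (hug : u ≤ g) (hg : g < n) (a : K) : 0 ≤ ff F c c' u g a := by
  by_cases ha : a ∈ (algebraMap F K).range
  · rw [ff_in c c' hug a ha]
    exact sum_nonneg c _ _
  · rw [ff_out hn hfin c c' hug hg a ha]
    exact sum_nonneg c _ _

lemma ff_eq {n : ℕ} (hn : n.Prime) (hfin : Module.finrank F K = n) (c : ℕ → G) (c' : G)
    {u g : ℕ} (hug : u ≤ g) (hg : g < n) (a : K) (ha : a ∉ (algebraMap F K).range)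
    (hc : ∑ k ∈ Icc 1 g, (dl F a k : G) * c k = c') :
    ff F c c' u g a = (VV c (Ioc u g)).card := by
  rw [ff_out hn hfin c c' hug hg a ha, hc, add_self_G]
  simp [sg_zero]

lemma sum_ff_le (hCHS : Stmt_CHS) (hF : ringChar F ≠ 2) {u t : ℕ}
    (hfin : Module.finrank F K = 2 * (u + t) + 1) (ht : 2 ≤ t) (c : ℕ → G) (c' : G) :
    ∑ a : K, ff F c c' u (u + t) a ≤ (VV c (Icc 1 (u + t))).card * (Fintype.card K : ℝ) +
      (VV c (Ioc u (u + t))).card * (12 * (Fintype.card F : ℝ) ^ u * √(Fintype.card K)) := by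
  classical
  unfold ff
  rw [Finset.sum_comm]
  have hpos : 0 ≤ 12 * (Fintype.card F : ℝ) ^ u * √(Fintype.card K) := by positivity
  have key : ∀ y ∈ VV c (Ioc u (u + t)),
      ∑ a : K, sg (Algebra.trace (ZMod 2) G (y * c')) *
        ∏ k ∈ (Icc 1 u).filter fun k => Algebra.trace (ZMod 2) G (y * c k) ≠ 0,
          ((quadraticChar K (a ^ Fintype.card F ^ k - a) : ℤ) : ℝ) ≤
      (if y ∈ VV c (Icc 1 (u + t)) then (Fintype.card K : ℝ) else 0) +
        12 * (Fintype.card F : ℝ) ^ u * √(Fintype.card K) := by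
    intro y hy
    rw [← Finset.mul_sum]
    refine (le_abs_self _).trans ?_
    rw [abs_mul, sg_abs, one_mul]
    by_cases hy0 : y ∈ VV c (Icc 1 (u + t))
    · rw [if_pos hy0]
      have h := (filter_empty c (Nat.le_add_right u t) hy).2 hy0
      rw [Finset.filter_eq_empty_iff.2]
      · simp only [Finset.prod_empty, Finset.sum_const, Finset.card_univ, nsmul_eq_mul, mul_one,
          Nat.abs_cast]
        linarith
      · intro k hk hne
        exact hne (h k hk)
    · rw [if_neg hy0, zero_add]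
      rw [← filter_empty c (Nat.le_add_right u t) hy] at hy0
      push Not at hy0
      obtain ⟨k, hk, hne⟩ := hy0
      have h := hCHS F K hF u t hfin ht
        ((Icc 1 u).filter fun k => Algebra.trace (ZMod 2) G (y * c k) ≠ 0)
        ⟨k, Finset.mem_filter.2 ⟨hk, hne⟩⟩ (by
          intro k' hk'
          exact Finset.mem_Icc.1 (Finset.mem_filter.1 hk').1)
      push_cast at h
      exact h
  refine (Finset.sum_le_sum key).trans ?_
  rw [Finset.sum_add_distrib, Finset.sum_ite_mem, Finset.inter_eq_right.2 (VV_subset c),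
    Finset.sum_const, Finset.sum_const, nsmul_eq_mul, nsmul_eq_mul]

end main

end Pool.Agent.Work.TC.COUNT

namespace Pool.Agent.Work.TC

open Finset Polynomial

theorem stmt_COUNT (hCHS : Stmt_CHS) : Stmt_COUNT := by
  intro F K _ _ _ _ _ _ hF n hn hn2 hfin G _ _ _ m d c c' hG hd t ht
  classical
  have hodd : Odd n := hn.odd_of_ne_two hn2
  set g := n / 2 with hgdef
  have hng : n = 2 * g + 1 := by
    obtain ⟨k, hk⟩ := hodd
    omega
  have hq3 : 3 ≤ Fintype.card F := by
    have h1 : 1 < Fintype.card F := Fintype.one_lt_card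
    have h2 : Fintype.card F ≠ 2 := by
      intro h2
      have h3 := FiniteField.even_card_iff_char_two (F := F)
      have : Fintype.card F % 2 = 0 := by omega
      exact hF (h3.2 this)
    omega
  have hcK : (Fintype.card K : ℝ) = (Fintype.card F : ℝ) ^ n := by
    have := Module.card_eq_pow_finrank (K := F) (V := K)
    rw [hfin] at this
    exact_mod_cast this
  have hV0 : Nat.card {y : G // ∀ k ∈ Icc 1 g, Algebra.trace (ZMod 2) G (y * c k) = 0} =
      (COUNT.VV c (Icc 1 g)).card := by
    rw [Nat.card_eq_fintype_card, Fintype.card_subtype]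
    rfl
  rw [hV0] at hd
  have hA : Nat.card {a : K // a ∉ (algebraMap F K).range ∧
      ∑ k ∈ Icc 1 g, (dl F a k : G) * c k = c'} =
      (Finset.univ.filter fun a : K => a ∉ (algebraMap F K).range ∧
        ∑ k ∈ Icc 1 g, (dl F a k : G) * c k = c').card := by
    rw [Nat.card_eq_fintype_card, Fintype.card_subtype]
  rw [hA]
  set A := Finset.univ.filter fun a : K => a ∉ (algebraMap F K).range ∧
        ∑ k ∈ Icc 1 g, (dl F a k : G) * c k = c' with hAdef
  have hqpos : (0 : ℝ) < (Fintype.card F : ℝ) := by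
    exact_mod_cast (by omega : 0 < Fintype.card F)
  rcases lt_or_ge g t with hgt | hgt
  · -- trivial case
    have h1 := COUNT.card_VV c (Icc 1 g)
    rw [hG, Nat.card_Icc, Nat.add_sub_cancel] at h1
    have h2 : 2 ^ m * 2 ^ d ≤ 2 ^ (m + 1) * 2 ^ g := by
      calc 2 ^ m * 2 ^ d ≤ (COUNT.VV c (Icc 1 g)).card * 2 ^ g * 2 ^ d :=
            Nat.mul_le_mul_right _ h1
        _ = (COUNT.VV c (Icc 1 g)).card * 2 ^ d * 2 ^ g := by ring
        _ ≤ 2 ^ (m + 1) * 2 ^ g := Nat.mul_le_mul_right _ hd
    have h3 : d ≤ t := by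
      rw [← pow_add, ← pow_add] at h2
      have := (Nat.pow_le_pow_iff_right (by norm_num : 1 < 2)).1 h2
      omega
    have h4 : (1 : ℝ) ≤ 2 ^ (t + 1) / 2 ^ d := by
      rw [le_div_iff₀ (by positivity), one_mul]
      exact pow_le_pow_right₀ (by norm_num) (by omega)
    have h5 : (A.card : ℝ) ≤ (Fintype.card F : ℝ) ^ n := by
      rw [← hcK]
      exact_mod_cast Finset.card_le_univ A
    calc (A.card : ℝ) ≤ (Fintype.card F : ℝ) ^ n * 1 := by rw [mul_one]; exact h5
      _ ≤ _ := by
          apply mul_le_mul_of_nonneg_left _ (by positivity)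
          have : (0 : ℝ) ≤ 12 / 3 ^ t := by positivity
          linarith
  · -- main case
    obtain ⟨u, hu⟩ : ∃ u, g = u + t := ⟨g - t, by omega⟩
    have hfin' : Module.finrank F K = 2 * (u + t) + 1 := by rw [hfin, hng, hu]
    have hsum := COUNT.sum_ff_le hCHS hF hfin' ht c c'
    rw [← hu] at hsum
    have hlow : (A.card : ℝ) * (COUNT.VV c (Ioc u g)).card ≤
        ∑ a : K, COUNT.ff F c c' u g a := by
      calc (A.card : ℝ) * (COUNT.VV c (Ioc u g)).card =
          ∑ a ∈ A, COUNT.ff F c c' u g a := by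
            rw [Finset.sum_congr rfl fun a ha => COUNT.ff_eq hn hfin c c' (by omega)
              (by omega) a (Finset.mem_filter.1 ha).2.1 (Finset.mem_filter.1 ha).2.2,
              Finset.sum_const, nsmul_eq_mul]
        _ ≤ _ := by
            apply Finset.sum_le_sum_of_subset_of_nonneg (Finset.subset_univ _)
            intro a _ _
            exact COUNT.ff_nonneg hn hfin c c' (by omega) (by omega) a
    have hU := COUNT.card_VV c (Ioc u g)
    rw [hG, Nat.card_Ioc, hu, Nat.add_sub_cancel_left] at hU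
    rw [← hu] at hU
    -- real versions
    set U : ℝ := ((COUNT.VV c (Ioc u g)).card : ℝ) with hUdef
    set W : ℝ := ((COUNT.VV c (Icc 1 g)).card : ℝ) with hWdef
    have hU' : (2 : ℝ) ^ m ≤ U * 2 ^ t := by
      rw [hUdef]
      exact_mod_cast hU
    have hW' : W * 2 ^ d ≤ 2 ^ (m + 1) := by
      rw [hWdef]
      exact_mod_cast hd
    have hUpos : 0 < U := by
      by_contra hcon
      push Not at hcon
      have h1 : U * 2 ^ t ≤ 0 := mul_nonpos_of_nonpos_of_nonneg hcon (by positivity)
      have h2 : (0 : ℝ) < 2 ^ m := by positivity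
      linarith
    have hWU : W ≤ U * (2 ^ (t + 1) / 2 ^ d) := by
      rw [mul_div_assoc', le_div_iff₀ (by positivity)]
      calc W * 2 ^ d ≤ 2 ^ (m + 1) := hW'
        _ = 2 ^ m * 2 := pow_succ _ _
        _ ≤ U * 2 ^ t * 2 := mul_le_mul_of_nonneg_right hU' (by norm_num)
        _ = U * 2 ^ (t + 1) := by ring
    have hsq : (Fintype.card F : ℝ) ^ u * √(Fintype.card K) ≤
        (Fintype.card F : ℝ) ^ n * (1 / 3 ^ t) := by
      rw [hcK]
      have h1 : (Fintype.card F : ℝ) ^ u * 3 ^ t ≤ √((Fintype.card F : ℝ) ^ n) := by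
        apply Real.le_sqrt_of_sq_le
        have h3 : (3 : ℝ) ≤ Fintype.card F := by exact_mod_cast hq3
        calc ((Fintype.card F : ℝ) ^ u * 3 ^ t) ^ 2
            ≤ ((Fintype.card F : ℝ) ^ u * (Fintype.card F : ℝ) ^ t) ^ 2 := by
              gcongr
          _ = (Fintype.card F : ℝ) ^ (2 * (u + t)) := by ring
          _ ≤ (Fintype.card F : ℝ) ^ n := pow_le_pow_right₀ (by linarith) (by omega)
      have h2 : √((Fintype.card F : ℝ) ^ n) * √((Fintype.card F : ℝ) ^ n) =
          (Fintype.card F : ℝ) ^ n := Real.mul_self_sqrt (by positivity)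
      rw [mul_one_div, le_div_iff₀ (by positivity)]
      calc (Fintype.card F : ℝ) ^ u * √((Fintype.card F : ℝ) ^ n) * 3 ^ t
          = ((Fintype.card F : ℝ) ^ u * 3 ^ t) * √((Fintype.card F : ℝ) ^ n) := by ring
        _ ≤ √((Fintype.card F : ℝ) ^ n) * √((Fintype.card F : ℝ) ^ n) :=
            mul_le_mul_of_nonneg_right h1 (Real.sqrt_nonneg _)
        _ = _ := h2
    have hfinal : (A.card : ℝ) * U ≤
        ((Fintype.card F : ℝ) ^ n * (2 ^ (t + 1) / 2 ^ d + 12 / 3 ^ t)) * U := by
      calc (A.card : ℝ) * U ≤ _ := hlow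
        _ ≤ W * (Fintype.card K : ℝ) +
            U * (12 * (Fintype.card F : ℝ) ^ u * √(Fintype.card K)) := hsum
        _ ≤ U * (2 ^ (t + 1) / 2 ^ d) * (Fintype.card F : ℝ) ^ n +
            U * (12 * ((Fintype.card F : ℝ) ^ n * (1 / 3 ^ t))) := by
            rw [hcK] at hsq ⊢
            have e1 := mul_le_mul_of_nonneg_right hWU
              (by positivity : (0 : ℝ) ≤ (Fintype.card F : ℝ) ^ n)
            have e2 := mul_le_mul_of_nonneg_left hsq hUpos.le
            nlinarith [e1, e2]
        _ = _ := by ring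
    exact le_of_mul_le_mul_right hfinal hUpos

end Pool.Agent.Work.TC
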