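import Pool.Agent.Work.MP_223b32_tc.Interface

/-! # FE: the functional equation by Gauss sums (helper15) -/

set_option autoImplicit false

namespace Pool.Agent.Work.TC.FE

open Finset Polynomial

section

variable {F K : Type} [Field F] [Field K] [Algebra F K]

/-- the combination of the first powers -/
def TT (a : K) (m : ℕ) (u : Fin m → F) : K :=
  ∑ l : Fin m, algebraMap F K (u l) * a ^ (l : ℕ)

lemma TT_snoc (a : K) (i : ℕ) (w : F) (c : Fin i → F) :
    TT a (i + 1) (Fin.snoc c w : Fin (i + 1) → F) =
      TT a i c + algebraMap F K w * a ^ i := by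
  unfold TT
  rw [Fin.sum_univ_castSucc]
  simp

lemma TT_smul (a : K) (i : ℕ) (t : F) (c : Fin i → F) :
    TT a i (fun l => t * c l) = algebraMap F K t * TT a i c := by
  unfold TT
  rw [Finset.mul_sum]
  refine Finset.sum_congr rfl fun l _ => ?_
  rw [map_mul, mul_assoc]

lemma val_eq (a : K) (i : ℕ) (c : Fin i → F) : val a i c = a ^ i + TT a i c := rfl

lemma lam_TT (lam : K →ₗ[F] F) (a : K) {n : ℕ} (h0 : ∀ m < n, lam (a ^ m) = 0)
    (h1 : lam (a ^ n) = 1) {i j : ℕ} (hij : i + j ≤ n) (u : Fin (i + 1) → F) :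
    lam (TT a (i + 1) u * a ^ j) = if i + j = n then u (Fin.last i) else 0 := by
  unfold TT
  rw [Finset.sum_mul, map_sum, Fin.sum_univ_castSucc]
  have e : ∀ l : Fin (i + 1), lam (algebraMap F K (u l) * a ^ (l : ℕ) * a ^ j) =
      u l * lam (a ^ ((l : ℕ) + j)) := by
    intro l
    rw [mul_assoc, ← pow_add, ← Algebra.smul_def, map_smul, smul_eq_mul]
  have h2 : ∀ l : Fin i, lam (algebraMap F K (u l.castSucc) * a ^ ((l.castSucc : Fin (i + 1)) : ℕ)
      * a ^ j) = 0 := by
    intro l
    rw [e, h0, mul_zero]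
    have := l.2
    simp only [Fin.val_castSucc]
    omega
  rw [Finset.sum_congr rfl fun l _ => h2 l, Finset.sum_const_zero, zero_add, e]
  simp only [Fin.val_last]
  split_ifs with h
  · rw [h, h1, mul_one]
  · rw [h0 _ (lt_of_le_of_ne hij h), mul_zero]

lemma exists_lam [FiniteDimensional F K] (a : K) {n : ℕ} (hn : Module.finrank F K = n + 1)
    (ha : (minpoly F a).natDegree = n + 1) :
    ∃ lam : K →ₗ[F] F, (∀ m < n, lam (a ^ m) = 0) ∧ lam (a ^ n) = 1 ∧
      (∀ y : K, ∃ w : Fin (n + 1) → F, y = TT a (n + 1) w) ∧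
      (∀ i ≤ n, Function.Injective (TT (F := F) a (i + 1))) := by
  have hli : LinearIndependent F fun i : Fin (n + 1) => a ^ (i : ℕ) := by
    have h := linearIndependent_pow (K := F) a
    rw [ha] at h
    exact h
  let B := basisOfLinearIndependentOfCardEqFinrank hli (by simp [hn])
  have hB : ∀ l : Fin (n + 1), B l = a ^ (l : ℕ) := fun l => by
    simp [B]
  refine ⟨B.coord (Fin.last n), ?_, ?_, ?_, ?_⟩
  · intro m hm
    have h := hB ⟨m, by omega⟩
    simp only at h
    rw [← h, Module.Basis.coord_apply, Module.Basis.repr_self, Finsupp.single_apply, if_neg]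
    intro h'
    rw [Fin.ext_iff] at h'
    simp at h'
    omega
  · have h := hB (Fin.last n)
    simp only [Fin.val_last] at h
    rw [← h, Module.Basis.coord_apply, Module.Basis.repr_self, Finsupp.single_apply, if_pos rfl]
  · intro y
    refine ⟨fun l => B.repr y l, ?_⟩
    have h := B.sum_repr y
    rw [← h]
    unfold TT
    refine Finset.sum_congr rfl fun l _ => ?_
    rw [Algebra.smul_def, hB, h]
  · intro i hi u v huv
    have hli2 : LinearIndependent F fun l : Fin (i + 1) => a ^ (l : ℕ) := by
      have := hli.comp (fun l : Fin (i + 1) => (⟨l, by omega⟩ : Fin (n + 1))) (by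
        intro x y h
        simpa [Fin.ext_iff] using h)
      exact this
    rw [Fintype.linearIndependent_iff] at hli2
    have h := hli2 (fun l => u l - v l) (by
      have : ∑ l : Fin (i + 1), (u l - v l) • a ^ (l : ℕ) = TT a (i + 1) u - TT a (i + 1) v := by
        unfold TT
        rw [← Finset.sum_sub_distrib]
        refine Finset.sum_congr rfl fun l _ => ?_
        rw [Algebra.smul_def, map_sub, sub_mul]
      rw [this, huv, sub_self])
    funext l
    exact sub_eq_zero.1 (h l)

lemma ann (lam : K →ₗ[F] F) (a : K) {n : ℕ} (h0 : ∀ m < n, lam (a ^ m) = 0)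
    (h1 : lam (a ^ n) = 1) (hy : ∀ y : K, ∃ w : Fin (n + 1) → F, y = TT a (n + 1) w)
    {i j : ℕ} (hij : i + j = n) (y : K) :
    (∀ k : Fin j, lam (y * a ^ (k : ℕ)) = 0) ↔ ∃ u : Fin (i + 1) → F, TT a (i + 1) u = y := by
  constructor
  · intro h
    obtain ⟨w, rfl⟩ := hy y
    have key : ∀ t ≤ j, ∀ l : Fin (n + 1), n + 1 ≤ (l : ℕ) + t → w l = 0 := by
      intro t
      induction t with
      | zero =>
        intro _ l hl
        have := l.2
        omega
      | succ t ih =>
        intro ht l hl
        by_cases hlt : n + 1 ≤ (l : ℕ) + t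
        · exact ih (by omega) l hlt
        · have hlt' : (l : ℕ) + t = n := by omega
          have h2 := h ⟨t, ht⟩
          simp only at h2
          unfold TT at h2
          rw [Finset.sum_mul, map_sum] at h2
          have e : ∀ l' : Fin (n + 1), lam (algebraMap F K (w l') * a ^ (l' : ℕ) * a ^ t) =
              if l' = l then w l else 0 := by
            intro l'
            rw [mul_assoc, ← pow_add, ← Algebra.smul_def, map_smul, smul_eq_mul]
            rcases lt_trichotomy (l' : ℕ) (l : ℕ) with hc | hc | hc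
            · rw [h0 _ (by omega), mul_zero, if_neg]
              rintro rfl
              omega
            · have : l' = l := Fin.ext hc
              subst this
              rw [if_pos rfl, hlt', h1, mul_one]
            · rw [ih (by omega) l' (by omega), zero_mul, if_neg]
              rintro rfl
              omega
          rw [Finset.sum_congr rfl fun l' _ => e l', Finset.sum_ite_eq' Finset.univ l] at h2
          simpa using h2
    refine ⟨fun l => w ⟨l, by omega⟩, ?_⟩
    unfold TT
    rw [← Finset.sum_subset (Finset.subset_univ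
      (Finset.univ.image fun l : Fin (i + 1) => (⟨l, by omega⟩ : Fin (n + 1)))),
      Finset.sum_image]
    · intro x _ y _ h
      simpa [Fin.ext_iff] using h
    · intro l _ hl
      rw [key j le_rfl l, map_zero, zero_mul]
      by_contra hcon
      refine hl (Finset.mem_image.2 ⟨⟨l, by omega⟩, Finset.mem_univ _, rfl⟩)
  · rintro ⟨u, rfl⟩ k
    have := k.2
    rw [lam_TT lam a h0 h1 (by omega) u, if_neg (by omega)]

end

/-- a nonsquare of `F` which is a nonsquare of `K` -/
lemma exists_neg {F K : Type} [Field F] [Fintype F] [Field K] [Fintype K] [DecidableEq K]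
    [Algebra F K] (hF : ringChar F ≠ 2) (hodd : Odd (Module.finrank F K)) :
    ∃ t : F, quadraticChar K (algebraMap F K t) = -1 := by
  obtain ⟨t, ht⟩ := FiniteField.exists_nonsquare hF
  refine ⟨t, ?_⟩
  rw [quadraticChar_neg_one_iff_not_isSquare]
  rintro ⟨s, hs⟩
  apply ht
  have hint : IsIntegral F s := Algebra.IsIntegral.isIntegral s
  have hdvd := minpoly.degree_dvd (K := F) hint
  have hle : (minpoly F s).natDegree ≤ 2 := by
    have h1 : minpoly F s ∣ (X ^ 2 - C t : F[X]) := by
      apply minpoly.dvd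
      simp [hs, sq]
    have h2 : (X ^ 2 - C t : F[X]) ≠ 0 := (monic_X_pow_sub_C t two_ne_zero).ne_zero
    calc (minpoly F s).natDegree ≤ (X ^ 2 - C t : F[X]).natDegree := natDegree_le_of_dvd h1 h2
      _ = 2 := natDegree_X_pow_sub_C
  have hpos := minpoly.natDegree_pos hint
  have hone : (minpoly F s).natDegree = 1 := by
    have h3 : (minpoly F s).natDegree ≠ 2 := by
      intro h4
      rw [h4] at hdvd
      exact (Nat.not_even_iff_odd.2 hodd) (even_iff_two_dvd.2 hdvd)
    omega
  rw [minpoly.natDegree_eq_one_iff] at hone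
  obtain ⟨r, rfl⟩ := hone
  refine ⟨r, ?_⟩
  apply (algebraMap F K).injective
  rw [hs, map_mul]

section

variable {F K : Type} [Field F] [Fintype F] [Field K] [Fintype K] [DecidableEq K] [Algebra F K]

/-- the complex quadratic character -/
noncomputable def XX (K : Type) [Field K] [Fintype K] [DecidableEq K] : MulChar K ℂ :=
  (quadraticChar K).ringHomComp (Int.castRingHom ℂ)

lemma XX_apply (y : K) : XX K y = ((quadraticChar K y : ℤ) : ℂ) := by
  unfold XX
  rw [MulChar.ringHomComp_apply]
  simp

lemma XX_sq {y : K} (hy : y ≠ 0) : XX K y * XX K y = 1 := by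
  rw [XX_apply, ← Int.cast_mul, ← sq, quadraticChar_sq_one hy, Int.cast_one]

/-- the sums of the character over translates of the span of the first powers -/
lemma sum_TT (hF : ringChar F ≠ 2) (hodd : Odd (Module.finrank F K)) (a : K) (i : ℕ) (w : F) :
    ∑ c : Fin i → F, XX K (TT a i c + algebraMap F K w * a ^ i) =
      XX K (algebraMap F K w) * (bb F a i : ℂ) := by
  by_cases hw : w = 0
  · subst hw
    rw [map_zero, MulChar.map_zero, zero_mul]
    obtain ⟨t, ht⟩ := exists_neg (F := F) (K := K) hF hodd
    have ht0 : t ≠ 0 := by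
      rintro rfl
      rw [map_zero, MulChar.map_zero] at ht
      norm_num at ht
    have h1 : ∑ c : Fin i → F, XX K (TT a i c + algebraMap F K 0 * a ^ i) =
        ∑ c : Fin i → F, XX K (TT a i (fun l => t * c l) + algebraMap F K 0 * a ^ i) := by
      symm
      refine Fintype.sum_equiv (Equiv.piCongrRight fun _ => Equiv.mulLeft₀ t ht0) _ _ fun c => ?_
      rfl
    have h2 : ∑ c : Fin i → F, XX K (TT a i (fun l => t * c l) + algebraMap F K 0 * a ^ i) =
        - ∑ c : Fin i → F, XX K (TT a i c + algebraMap F K 0 * a ^ i) := by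
      rw [← Finset.sum_neg_distrib]
      refine Finset.sum_congr rfl fun c _ => ?_
      rw [map_zero, zero_mul, add_zero, add_zero, TT_smul, map_mul, XX_apply (algebraMap F K t), ht]
      push_cast
      ring
    rw [h2] at h1
    simp only [map_zero, zero_mul] at h1 ⊢
    exact self_eq_neg.1 h1
  · have h1 : ∑ c : Fin i → F, XX K (TT a i c + algebraMap F K w * a ^ i) =
        ∑ c : Fin i → F, XX K (TT a i (fun l => w * c l) + algebraMap F K w * a ^ i) := by
      symm
      refine Fintype.sum_equiv (Equiv.piCongrRight fun _ => Equiv.mulLeft₀ w hw) _ _ fun c => ?_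
      rfl
    rw [h1]
    unfold bb
    rw [Int.cast_sum, Finset.mul_sum]
    refine Finset.sum_congr rfl fun c _ => ?_
    rw [TT_smul, ← mul_add, map_mul, add_comm, ← val_eq, XX_apply (val a i c)]

lemma sum_snoc (i : ℕ) (f : (Fin (i + 1) → F) → ℂ) :
    ∑ u, f u = ∑ w : F, ∑ c : Fin i → F, f (Fin.snoc c w : Fin (i + 1) → F) := by
  rw [← Fintype.sum_prod_type']
  symm
  exact Fintype.sum_equiv (Fin.snocEquiv fun _ => F) _ _ fun _ => rfl

/-- the main identity -/
lemma main (hF : ringChar F ≠ 2) (hodd : Odd (Module.finrank F K)) (a : K) {n : ℕ}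
    (hn : Module.finrank F K = n + 1) (lam : K →ₗ[F] F) (h0 : ∀ m < n, lam (a ^ m) = 0)
    (h1 : lam (a ^ n) = 1) (hy : ∀ y : K, ∃ w : Fin (n + 1) → F, y = TT a (n + 1) w)
    (hinj : ∀ i ≤ n, Function.Injective (TT (F := F) a (i + 1)))
    (ψ : AddChar F ℂ) (hψ : ψ.IsPrimitive) {i j : ℕ} (hij : i + j = n) :
    (∑ y : K, XX K y * ψ (lam y)) * (bb F a j : ℂ) =
      (Fintype.card F : ℂ) ^ j * (∑ w : F, XX K (algebraMap F K w) * ψ w) * (bb F a i : ℂ) := by
  classical
  have hK : ringChar K ≠ 2 := by
    have : ringChar K = ringChar F := by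
      have h1F := ringChar.charP F
      have h2K := ringChar.charP K
      have h3K : CharP K (ringChar F) := charP_of_injective_algebraMap (algebraMap F K).injective _
      exact ringChar.eq K (ringChar F)
    rwa [this]
  have hX1 : XX K ≠ 1 := by
    unfold XX
    rw [MulChar.ringHomComp_ne_one_iff (RingHom.injective_int _)]
    exact quadraticChar_ne_one hK
  have step1 : ∀ z : K, XX K z * ∑ y : K, XX K y * ψ (lam y) =
      ∑ y : K, XX K y * ψ (lam (y * z)) := by
    intro z
    by_cases hz : z = 0
    · subst hz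
      rw [MulChar.map_zero, zero_mul]
      simp only [mul_zero, map_zero, AddChar.map_zero_eq_one, mul_one]
      exact (MulChar.sum_eq_zero_of_ne_one hX1).symm
    · have e : ∑ y : K, XX K y * ψ (lam y) = ∑ y : K, XX K (y * z) * ψ (lam (y * z)) := by
        symm
        refine Fintype.sum_equiv (Equiv.mulRight₀ z hz) _ _ fun y => ?_
        rfl
      rw [e, Finset.mul_sum]
      refine Finset.sum_congr rfl fun y _ => ?_
      rw [map_mul]
      have := XX_sq hz
      calc XX K z * (XX K y * XX K z * ψ (lam (y * z)))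
          = (XX K z * XX K z) * (XX K y * ψ (lam (y * z))) := by ring
        _ = _ := by rw [this, one_mul]
  have step2 : (∑ y : K, XX K y * ψ (lam y)) * (bb F a j : ℂ) =
      ∑ y : K, XX K y * (ψ (lam (y * a ^ j)) *
        ∑ c : Fin j → F, ∏ k : Fin j, ψ (c k * lam (y * a ^ (k : ℕ)))) := by
    unfold bb
    rw [Int.cast_sum, Finset.mul_sum]
    have e : ∀ c : Fin j → F, (∑ y : K, XX K y * ψ (lam y)) *
        ((quadraticChar K (val a j c) : ℤ) : ℂ) =
        ∑ y : K, XX K y * (ψ (lam (y * a ^ j)) *
          ∏ k : Fin j, ψ (c k * lam (y * a ^ (k : ℕ)))) := by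
      intro c
      rw [← XX_apply, mul_comm, step1]
      refine Finset.sum_congr rfl fun y _ => ?_
      congr 1
      rw [val_eq, mul_add, map_add, AddChar.map_add_eq_mul]
      congr 1
      unfold TT
      rw [Finset.mul_sum, map_sum]
      have : ∀ s : Finset (Fin j), ψ (∑ k ∈ s, lam (y * (algebraMap F K (c k) * a ^ (k : ℕ)))) =
          ∏ k ∈ s, ψ (c k * lam (y * a ^ (k : ℕ))) := by
        intro s
        induction s using Finset.induction_on with
        | empty => simp
        | insert k s hk ih =>
          rw [Finset.sum_insert hk, Finset.prod_insert hk, AddChar.map_add_eq_mul, ih]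
          congr 2
          have : y * (algebraMap F K (c k) * a ^ (k : ℕ)) = c k • (y * a ^ (k : ℕ)) := by
            rw [Algebra.smul_def]
            ring
          rw [this, map_smul, smul_eq_mul]
      exact this Finset.univ
    rw [Finset.sum_congr rfl fun c _ => e c, Finset.sum_comm]
    refine Finset.sum_congr rfl fun y _ => ?_
    rw [← Finset.mul_sum, ← Finset.mul_sum]
  have step3 : ∀ b : Fin j → F, ∑ c : Fin j → F, ∏ k : Fin j, ψ (c k * b k) =
      if ∀ k, b k = 0 then (Fintype.card F : ℂ) ^ j else 0 := by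
    intro b
    have e1 := Finset.prod_univ_sum (fun _ : Fin j => (Finset.univ : Finset F))
      (fun (k : Fin j) (x : F) => ψ (x * b k))
    rw [Fintype.piFinset_univ] at e1
    rw [← e1]
    have e2 : ∀ k : Fin j, ∑ x : F, ψ (x * b k) =
        if b k = 0 then (Fintype.card F : ℂ) else 0 := by
      intro k
      rw [AddChar.sum_mulShift (b k) hψ]
      split_ifs <;> simp
    rw [Finset.prod_congr rfl fun k _ => e2 k, Finset.prod_ite_zero]
    simp
  rw [step2]
  have step4 : ∑ y : K, XX K y * (ψ (lam (y * a ^ j)) *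
        ∑ c : Fin j → F, ∏ k : Fin j, ψ (c k * lam (y * a ^ (k : ℕ)))) =
      ∑ y ∈ Finset.univ.filter (fun y : K => ∀ k : Fin j, lam (y * a ^ (k : ℕ)) = 0),
        XX K y * (ψ (lam (y * a ^ j)) * (Fintype.card F : ℂ) ^ j) := by
    rw [Finset.sum_filter]
    refine Finset.sum_congr rfl fun y _ => ?_
    rw [step3]
    split_ifs with h
    · rfl
    · simp
  have step5 : Finset.univ.filter (fun y : K => ∀ k : Fin j, lam (y * a ^ (k : ℕ)) = 0) =
      Finset.univ.image (TT (F := F) a (i + 1)) := by
    ext y
    simp only [Finset.mem_filter, Finset.mem_univ, true_and, Finset.mem_image]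
    exact ann lam a h0 h1 hy hij y
  rw [step4, step5, Finset.sum_image (by
    intro x _ y _ h
    exact hinj i (by omega) h)]
  have step6 : ∀ u : Fin (i + 1) → F, lam (TT a (i + 1) u * a ^ j) = u (Fin.last i) := by
    intro u
    rw [lam_TT lam a h0 h1 hij.le u, if_pos hij]
  simp_rw [step6]
  rw [sum_snoc]
  have step7 : ∀ w : F, ∑ c : Fin i → F, XX K (TT a (i + 1) (Fin.snoc c w : Fin (i + 1) → F)) *
      (ψ ((Fin.snoc c w : Fin (i + 1) → F) (Fin.last i)) * (Fintype.card F : ℂ) ^ j) =
      (Fintype.card F : ℂ) ^ j * (XX K (algebraMap F K w) * ψ w) * (bb F a i : ℂ) := by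
    intro w
    have h := sum_TT hF hodd a i w
    calc _ = ∑ c : Fin i → F, XX K (TT a i c + algebraMap F K w * a ^ i) *
          (ψ w * (Fintype.card F : ℂ) ^ j) := by
          refine Finset.sum_congr rfl fun c _ => ?_
          rw [TT_snoc]
          simp
      _ = _ := by
          rw [← Finset.sum_mul, h]
          ring
  rw [Finset.sum_congr rfl fun w _ => step7 w, ← Finset.sum_mul, ← Finset.mul_sum]

end

end Pool.Agent.Work.TC.FE

namespace Pool.Agent.Work.TC

open Finset Polynomial

theorem stmt_FE : Stmt_FE := by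
  intro F K _ _ _ _ _ _ hF hodd a ha i j hij
  classical
  set n := i + j with hn
  have hfin : Module.finrank F K = n + 1 := hij.symm
  obtain ⟨lam, h0, h1, hy, hinj⟩ := FE.exists_lam (F := F) a hfin (ha.trans hfin)
  set ψ := AddChar.FiniteField.primitiveChar_to_Complex F
  have hψ : ψ.IsPrimitive := AddChar.FiniteField.primitiveChar_to_Complex_isPrimitive F
  have hm := fun (i j : ℕ) (hij : i + j = n) =>
    FE.main hF hodd a hfin lam h0 h1 hy hinj ψ hψ (i := i) (j := j) hij
  have e1 := hm i j rfl
  have e0 := hm n 0 rfl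
  have hb0 : bb F a 0 = 1 := by
    unfold bb val
    simp
  rw [hb0, Int.cast_one, mul_one, pow_zero, one_mul] at e0
  -- the Gauss sum is not zero
  have hK : ringChar K ≠ 2 := by
    have : ringChar K = ringChar F := by
      have h1F := ringChar.charP F
      have h2K := ringChar.charP K
      have h3K : CharP K (ringChar F) := charP_of_injective_algebraMap (algebraMap F K).injective _
      exact ringChar.eq K (ringChar F)
    rwa [this]
  have hX1 : FE.XX K ≠ 1 := by
    unfold FE.XX
    rw [MulChar.ringHomComp_ne_one_iff (RingHom.injective_int _)]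
    exact quadraticChar_ne_one hK
  have hX2 : (FE.XX K).IsQuadratic := by
    unfold FE.XX
    exact (quadraticChar_isQuadratic K).comp _
  let Ψ : AddChar K ℂ := ψ.compAddMonoidHom lam.toAddMonoidHom
  have hΨ : Ψ.IsPrimitive := by
    apply AddChar.IsPrimitive.of_ne_one
    rw [AddChar.ne_one_iff]
    have h2 : ψ ≠ 1 := by
      have h3 := hψ (a := 1) one_ne_zero
      rwa [AddChar.mulShift_one] at h3
    obtain ⟨w, hw⟩ := AddChar.ne_one_iff.1 h2
    refine ⟨w • a ^ n, ?_⟩
    have : Ψ (w • a ^ n) = ψ w := by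
      change ψ (lam (w • a ^ n)) = ψ w
      rw [map_smul, h1, smul_eq_mul, mul_one]
    rwa [this]
  have hG : ∑ y : K, FE.XX K y * ψ (lam y) ≠ 0 := by
    intro h
    have hg := gaussSum_sq hX1 hX2 hΨ
    have hgs : gaussSum (FE.XX K) Ψ = ∑ y : K, FE.XX K y * ψ (lam y) := rfl
    rw [hgs, h] at hg
    have h5 : FE.XX K (-1) ≠ 0 := by
      intro h6
      have := FE.XX_sq (K := K) (y := -1) (by simp)
      rw [h6] at this
      simp at this
    have h7 : (Fintype.card K : ℂ) ≠ 0 := by
      exact_mod_cast Fintype.card_ne_zero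
    have : (0 : ℂ) ^ 2 = 0 := by norm_num
    rw [this] at hg
    exact (mul_ne_zero h5 h7) hg.symm
  have hGF : ∑ w : F, FE.XX K (algebraMap F K w) * ψ w ≠ 0 := by
    intro h
    rw [h, zero_mul] at e0
    exact hG e0
  rw [e0] at e1
  have e2 : ((bb F a n : ℤ) : ℂ) * (bb F a j : ℂ) = (Fintype.card F : ℂ) ^ j * (bb F a i : ℂ) := by
    apply mul_left_cancel₀ hGF
    rw [← mul_assoc, e1]
    ring
  exact_mod_cast e2

end Pool.Agent.Work.TC
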